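import Pool.Agent.W873.RT.Stm

set_option autoImplicit false

open MeasureTheory ProbabilityTheory Polynomial Filter Topology
open scoped ENNReal NNReal

namespace Pool.Agent.W873.RT

open Pool.Agent.W873.RS (sc chg npos TON FAT)

/-- sum of the squares -/
noncomputable def GG {s : ℕ} (f : Fin s → ℝ[X]) : ℝ[X] := ∑ i, f i ^ 2

theorem GG_nonneg {s : ℕ} (f : Fin s → ℝ[X]) (x : ℝ) : 0 ≤ (GG f).eval x := by
  unfold GG
  rw [eval_finsetSum]
  exact Finset.sum_nonneg (fun i _ => by rw [eval_pow]; positivity)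

/-- the approximating functions -/
noncomputable def YY {s : ℕ} (f : Fin s → ℝ[X]) (δ ε : ℝ) (c : Fin s → ℝ) : ℝ≥0∞ :=
  (volume (chg (fun x => (sq f c + C (-δ) * GG f).eval x) ε) +
      volume (chg (fun x => (sq f c + C δ * GG f).eval x) ε)) / (2 * ENNReal.ofReal ε)

theorem YY_meas0 (hTON : TON) (hMS : MS2) {s : ℕ} (f : Fin s → ℝ[X]) (δ ε : ℝ) :
    Measurable (fun c => volume (chg (fun x => (sq f c + C δ * GG f).eval x) ε)) := by
  have h1 : Measurable (Function.uncurry (fun (c : Fin s → ℝ) x =>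
      (sq f c + C δ * GG f).eval x)) := by
    have h2 := (hMS s f).2
    have h3 : Measurable (fun p : (Fin s → ℝ) × ℝ => (C δ * GG f).eval p.2) :=
      ((C δ * GG f).continuous.measurable).comp measurable_snd
    have h4 := h2.add h3
    have e : Function.uncurry (fun (c : Fin s → ℝ) x => (sq f c + C δ * GG f).eval x) =
        (Function.uncurry (fun c x => (sq f c).eval x)) +
          (fun p : (Fin s → ℝ) × ℝ => (C δ * GG f).eval p.2) := by
      funext p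
      simp only [Function.uncurry, Pi.add_apply, eval_add]
    rw [e]
    exact h4
  exact (hTON _ (Measure.dirac (fun _ => (0:ℝ))) (fun c x => (sq f c + C δ * GG f).eval x) ε h1).1

theorem YY_meas (hTON : TON) (hMS : MS2) {s : ℕ} (f : Fin s → ℝ[X]) (δ ε : ℝ) :
    Measurable (YY f δ ε) := by
  unfold YY
  exact ((YY_meas0 hTON hMS f (-δ) ε).add (YY_meas0 hTON hMS f δ ε)).div_const _

theorem YY_ev (hDETG : DETG) {s : ℕ} (f : Fin s → ℝ[X]) (c : Fin s → ℝ) :
    ∀ᶠ δ in 𝓝[>] (0 : ℝ), ∀ᶠ ε in 𝓝[>] (0 : ℝ),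
      (((sq f c).roots.toFinset.filter
        (fun x => 0 < x ∧ (GG f).eval x ≠ 0)).card : ℝ≥0∞) ≤ YY f δ ε c := by
  by_cases h0 : sq f c = 0
  · refine Filter.Eventually.of_forall (fun δ => Filter.Eventually.of_forall (fun ε => ?_))
    simp [h0]
  · have h3 := hDETG (sq f c) (GG f) h0 (GG_nonneg f)
    filter_upwards [h3] with δ hδ
    have hpos : ∀ᶠ ε in 𝓝[>] (0 : ℝ), 0 < ε := eventually_mem_nhdsWithin
    filter_upwards [hδ, hpos] with ε hε hε0
    unfold YY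
    have e0 : (2 * ENNReal.ofReal ε) ≠ 0 := by
      simp [hε0]
    have e1 : (2 * ENNReal.ofReal ε) ≠ ∞ := ENNReal.mul_ne_top (by simp) ENNReal.ofReal_ne_top
    rw [ENNReal.le_div_iff_mul_le (Or.inl e0) (Or.inl e1)]
    have e2 : sq f c + C (-δ) * GG f = sq f c - C δ * GG f := by
      rw [C_neg]; ring
    rw [e2]
    refine le_trans (le_of_eq ?_) hε
    ring

theorem YY_int (hTON : TON) (hMS : MS2) (hSHF : SHF) {s : ℕ} (f : Fin s → ℝ[X])
    (μ : Fin s → Measure ℝ) [∀ i, IsProbabilityMeasure (μ i)] (K M : ℝ≥0) (ε δ : ℝ)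
    (hε : 0 < ε) (hδ : |δ| * (K + 1) ≤ 1) (hf : ∀ i, f i ≠ 0)
    (hK : ∀ i, μ i ≤ (K : ℝ≥0∞) • volume) (hM : ∀ i, ∫⁻ c, ENNReal.ofReal |c| ∂(μ i) ≤ M) :
    ∫⁻ c, YY f δ ε c ∂(Measure.pi μ) ≤
      48 * (1 + K * M) * s * ((∑ i, (f i).support.card : ℕ) : ℝ≥0∞) := by
  unfold YY
  have e0 : (2 * ENNReal.ofReal ε) ≠ 0 := by simp [hε]
  have e1 : (2 * ENNReal.ofReal ε) ≠ ∞ := ENNReal.mul_ne_top (by simp) ENNReal.ofReal_ne_top
  have k1 := hSHF s f μ K M ε (-δ) hε (by rwa [abs_neg]) hf hK hM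
  have k2 := hSHF s f μ K M ε δ hε hδ hf hK hM
  have hm := YY_meas0 hTON hMS f (-δ) ε
  have hm2 := YY_meas0 hTON hMS f δ ε
  simp only [div_eq_mul_inv]
  have hm3 : Measurable (fun c => volume (chg (fun x => (sq f c + C (-δ) * GG f).eval x) ε) +
      volume (chg (fun x => (sq f c + C δ * GG f).eval x) ε)) := hm.add hm2
  rw [lintegral_mul_const _ hm3]
  rw [lintegral_add_left hm]
  rw [← div_eq_mul_inv, ENNReal.div_le_iff e0 e1]
  refine le_trans (add_le_add k1 k2) (le_of_eq ?_)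
  ring

/-- Main theorem for nonzero `f i`. -/
theorem main (hTON : TON) (hFAT : FAT) (hMS : MS2) (hSHF : SHF) (hDETG : DETG) (hCNT : CNT)
    (s : ℕ) (f : Fin s → ℝ[X])
    (μ : Fin s → Measure ℝ) [∀ i, IsProbabilityMeasure (μ i)] (K M : ℝ≥0)
    (hf : ∀ i, f i ≠ 0)
    (hK : ∀ i, μ i ≤ (K : ℝ≥0∞) • volume) (hM : ∀ i, ∫⁻ c, ENNReal.ofReal |c| ∂(μ i) ≤ M) :
    ∫⁻ c, ((sq f c).roots.toFinset.card : ℝ≥0∞) ∂(Measure.pi μ) ≤
      100 * (1 + K * M) * s * ((∑ i, (f i).support.card : ℕ) : ℝ≥0∞) := by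
  rcases Nat.eq_zero_or_pos s with hs | hs
  · subst hs
    simp [sq]
  have hcomp := fun c => (hCNT s f c hs hf)
  have hc0 := (hcomp (fun _ => 0)).2
  set S : ℕ := ∑ i, (f i).support.card with hS
  set f' : Fin s → ℝ[X] := fun i => (f i).comp (-Polynomial.X) with hf'
  have hf'0 : ∀ i, f' i ≠ 0 := hc0.2
  have hS' : ∑ i, (f' i).support.card = S := Finset.sum_congr rfl (fun i _ => hc0.1 i)
  have hS1 : 1 ≤ S := by
    have h1 : (f ⟨0, hs⟩).support.card ≤ S :=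
      Finset.single_le_sum (f := fun i => (f i).support.card) (fun i _ => Nat.zero_le _)
        (Finset.mem_univ _)
    have h2 : 0 < (f ⟨0, hs⟩).support.card :=
      Finset.card_pos.mpr (nonempty_support_iff.mpr (hf _))
    omega
  have hfin : ((2 * S + 1 : ℕ) : ℝ≥0∞) ≤ 4 * ((1 + K * M) * s * (S : ℝ≥0∞)) := by
    have h1 : ((2 * S + 1 : ℕ) : ℝ≥0∞) ≤ ((4 * (s * S) : ℕ) : ℝ≥0∞) := by
      apply Nat.cast_le.mpr
      have : S ≤ s * S := Nat.le_mul_of_pos_left S hs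
      omega
    refine le_trans h1 ?_
    push_cast
    refine mul_le_mul_right ?_ _
    have h3 : (1 : ℝ≥0∞) ≤ 1 + K * M := le_self_add
    calc (s : ℝ≥0∞) * S = 1 * (s * S) := by rw [one_mul]
      _ ≤ (1 + K * M) * (s * S) := mul_le_mul_left h3 _
      _ = _ := by ring
  have hint := fun (δ ε : ℝ) (hε : 0 < ε) (hδ : |δ| * (K + 1) ≤ 1) =>
    YY_int hTON hMS hSHF f μ K M ε δ hε hδ hf hK hM
  have hint' := fun (δ ε : ℝ) (hε : 0 < ε) (hδ : |δ| * (K + 1) ≤ 1) =>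
    YY_int hTON hMS hSHF f' μ K M ε δ hε hδ hf'0 hK hM
  rw [← hS] at hint
  rw [hS'] at hint'
  classical
  refine hFAT _ (Measure.pi μ) _ (fun δ ε c => if |δ| * (K + 1) ≤ 1 then
    YY f δ ε c + YY f' δ ε c + ((2 * S + 1 : ℕ) : ℝ≥0∞) else 0) _ ?_ ?_ ?_
  · intro δ ε
    split_ifs
    · exact ((YY_meas hTON hMS f δ ε).add (YY_meas hTON hMS f' δ ε)).add_const _
    · exact measurable_const
  · intro c
    have hsmall : ∀ᶠ δ in 𝓝[>] (0 : ℝ), |δ| * ((K : ℝ) + 1) ≤ 1 := by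
      have hc : Tendsto (fun δ : ℝ => |δ| * ((K : ℝ) + 1)) (𝓝[>] (0 : ℝ)) (𝓝 0) := by
        have : Tendsto (fun δ : ℝ => |δ| * ((K : ℝ) + 1)) (𝓝 (0 : ℝ)) (𝓝 (|0| * ((K : ℝ) + 1))) :=
          (continuous_abs.mul continuous_const).tendsto 0
        simp only [abs_zero, zero_mul] at this
        exact this.mono_left nhdsWithin_le_nhds
      exact (hc.eventually (gt_mem_nhds one_pos)).mono (fun δ h => le_of_lt h)
    filter_upwards [YY_ev hDETG f c, YY_ev hDETG f' c, hsmall] with δ h1 h2 h5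
    filter_upwards [h1, h2] with ε h3 h4
    rw [if_pos h5]
    have h6 := Nat.cast_le (α := ℝ≥0∞) |>.mpr (hcomp c).1
    refine le_trans h6 ?_
    rw [add_assoc _ (2 * _) 1, Nat.cast_add, Nat.cast_add _ (Finset.card _)]
    exact add_le_add (add_le_add h3 h4) le_rfl
  · intro δ ε hδ hε
    by_cases h5 : |δ| * ((K : ℝ) + 1) ≤ 1
    · simp only [if_pos h5]
      rw [lintegral_add_right _ measurable_const, lintegral_add_left (YY_meas hTON hMS f δ ε),
        lintegral_const, measure_univ, mul_one]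
      refine le_trans (add_le_add (add_le_add (hint δ ε hε h5) (hint' δ ε hε h5)) hfin)
        (le_of_eq ?_)
      ring
    · simp only [if_neg h5]
      simp

end Pool.Agent.W873.RT
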