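import Pool.Agent.W873.RS.Stm

/-!
# Project RT: smoothed analysis of the real tau-conjecture for sums of squares

For arbitrary nonzero `f i` and independent random scalars `c i` (laws with density at most `K` and
first absolute moment at most `M`) the expected number of distinct real roots of
`∑ i, c i * f i ^ 2` is at most `100 * (1 + K * M) * s * ∑ i, |f i|₀`.
-/

set_option autoImplicit false

open MeasureTheory ProbabilityTheory Polynomial Filter Topology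
open scoped ENNReal NNReal

namespace Pool.Agent.W873.RT

open Pool.Agent.W873.RS (sc chg npos)

/-- the weighted sum of squares -/
noncomputable def sq {s : ℕ} (f : Fin s → ℝ[X]) (c : Fin s → ℝ) : ℝ[X] :=
  ∑ i, C (c i) * f i ^ 2

noncomputable def rho (a b : ℝ) : ℝ := a / (a + b)

/-- AFF: change of side of a random linear combination, normalised at the index `j`. -/
def AFF : Prop :=
  ∀ (s : ℕ) (μ : Fin s → Measure ℝ) [∀ i, IsProbabilityMeasure (μ i)] (K M : ℝ≥0)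
    (v w : Fin s → ℝ) (j : Fin s),
    (∀ i, μ i ≤ (K : ℝ≥0∞) • volume) → (∀ i, ∫⁻ c, ENNReal.ofReal |c| ∂(μ i) ≤ M) →
    0 < v j → 0 < w j →
    Measure.pi μ {c | sc (∑ i, c i * v i) (∑ i, c i * w i)} ≤
      K * M * ∑ i, ENNReal.ofReal |v i / v j - w i / w j|

/-- PR2: the same with bounded quantities (dep AFF). -/
def PR2 : Prop :=
  ∀ (s : ℕ) (μ : Fin s → Measure ℝ) [∀ i, IsProbabilityMeasure (μ i)] (K M : ℝ≥0)
    (v w : Fin s → ℝ),
    (∀ i, μ i ≤ (K : ℝ≥0∞) • volume) → (∀ i, ∫⁻ c, ENNReal.ofReal |c| ∂(μ i) ≤ M) →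
    (∀ i, 0 < v i) → (∀ i, 0 < w i) →
    Measure.pi μ {c | sc (∑ i, c i * v i) (∑ i, c i * w i)} ≤
      6 * (1 + K * M) * ∑ i, ∑ k, ENNReal.ofReal |rho (v i) (v k) - rho (w i) (w k)|

/-- VNP: the change set is small if there are few positive roots. -/
def VNP : Prop :=
  ∀ (g : ℝ[X]) (ε : ℝ), 0 < ε →
    volume (chg (fun x => g.eval x) ε) ≤ ENNReal.ofReal ε * (npos g : ℝ≥0∞)

/-- LAY: total variation of the ratio of two squares (dep VNP). -/
def LAY : Prop :=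
  ∀ (f g : ℝ[X]) (ε : ℝ), 0 < ε → f ≠ 0 → g ≠ 0 →
    ∫⁻ x in Set.Ioi (0 : ℝ), ENNReal.ofReal
      |rho ((f.eval x) ^ 2) ((g.eval x) ^ 2) -
        rho ((f.eval (x + ε)) ^ 2) ((g.eval (x + ε)) ^ 2)| ≤
      ENNReal.ofReal ε * (2 * ((f.support.card + g.support.card : ℕ) : ℝ≥0∞))

/-- DETG: every positive root of `f` at which `g` does not vanish is seen twice by
`f - δ g` and `f + δ g`. -/
def DETG : Prop :=
  ∀ f g : ℝ[X], f ≠ 0 → (∀ x, 0 ≤ g.eval x) →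
    ∀ᶠ δ in 𝓝[>] (0 : ℝ), ∀ᶠ ε in 𝓝[>] (0 : ℝ),
    ENNReal.ofReal ε *
        (2 * ((f.roots.toFinset.filter (fun x => 0 < x ∧ g.eval x ≠ 0)).card : ℝ≥0∞)) ≤
      volume (chg (fun x => (f - C δ * g).eval x) ε) +
        volume (chg (fun x => (f + C δ * g).eval x) ε)

/-- EX2: expected measure of the change set (deps PR2, LAY, TON). -/
def EX2 : Prop :=
  ∀ (s : ℕ) (f : Fin s → ℝ[X]) (μ : Fin s → Measure ℝ) [∀ i, IsProbabilityMeasure (μ i)]
    (K M : ℝ≥0) (ε : ℝ), 0 < ε → (∀ i, f i ≠ 0) →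
    (∀ i, μ i ≤ (K : ℝ≥0∞) • volume) → (∀ i, ∫⁻ c, ENNReal.ofReal |c| ∂(μ i) ≤ M) →
    ∫⁻ c, volume (chg (fun x => (sq f c).eval x) ε) ∂(Measure.pi μ) ≤
      ENNReal.ofReal ε * (24 * (1 + K * M) * s * ((∑ i, (f i).support.card : ℕ) : ℝ≥0∞))

/-- SHF: the same for the shifted scalars (dep EX2). -/
def SHF : Prop :=
  ∀ (s : ℕ) (f : Fin s → ℝ[X]) (μ : Fin s → Measure ℝ) [∀ i, IsProbabilityMeasure (μ i)]
    (K M : ℝ≥0) (ε δ : ℝ), 0 < ε → |δ| * (K + 1) ≤ 1 → (∀ i, f i ≠ 0) →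
    (∀ i, μ i ≤ (K : ℝ≥0∞) • volume) → (∀ i, ∫⁻ c, ENNReal.ofReal |c| ∂(μ i) ≤ M) →
    ∫⁻ c, volume (chg (fun x => (sq f c + C δ * ∑ i, f i ^ 2).eval x) ε) ∂(Measure.pi μ) ≤
      ENNReal.ofReal ε * (48 * (1 + K * M) * s * ((∑ i, (f i).support.card : ℕ) : ℝ≥0∞))

/-- CNT: all real roots are counted. -/
def CNT : Prop :=
  ∀ (s : ℕ) (f : Fin s → ℝ[X]) (c : Fin s → ℝ), 0 < s → (∀ i, f i ≠ 0) →
    (sq f c).roots.toFinset.card ≤
      ((sq f c).roots.toFinset.filter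
        (fun x => 0 < x ∧ (∑ i, f i ^ 2 : ℝ[X]).eval x ≠ 0)).card +
      ((sq (fun i => (f i).comp (-X)) c).roots.toFinset.filter
        (fun x => 0 < x ∧ (∑ i, ((f i).comp (-X)) ^ 2 : ℝ[X]).eval x ≠ 0)).card +
      2 * (∑ i, (f i).support.card) + 1 ∧
    (∀ i, ((f i).comp (-X)).support.card = (f i).support.card) ∧
    (∀ i, (f i).comp (-X) ≠ 0)

/-- MS2: measurability. -/
def MS2 : Prop :=
  ∀ (s : ℕ) (f : Fin s → ℝ[X]), Measurable (fun c => (sq f c).roots.toFinset.card) ∧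
    Measurable (Function.uncurry (fun c x => (sq f c).eval x))

end Pool.Agent.W873.RT
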